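import Mathlib
import Pool.Agent.Helper398.MainEE

/-!
The counting part of `Pool.Agent.Helper398.finish`, `assemble` and `main_top`, for sets whose number of
subset sums is at most `(m² + 3 m + 2) / 2`, with two missing elements.
-/

set_option autoImplicit false
set_option linter.unusedSectionVars false

open Finset
open scoped Pointwise

namespace Pool.Agent.Q248.ZU

open Pool.Agent.Helper398

variable {G : Type*} [AddCommGroup G] [Finite G] [DecidableEq G]

theorem count2 {W : ℕ} (hW : 0 < W) (w : G →+ ZMod W) (hsurj : Function.Surjective w)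
    (v : G → ℤ) (hv : ∀ x, (v x : ZMod W) = w x) (hvW : ∀ x, 2 * |v x| ≤ W)
    (A S : Finset G) (hZ : ZSF A) (m q : ℕ) (hm : A.card = m) (hq : q = Nat.card w.ker)
    (hSA : S ⊆ A) (a : G) (ha : a ∈ A) (haS : a ∉ S) (hva : v a ≠ 0) (α : ℤ) (hα : 1 ≤ α)
    (hIv : Iv w v S α) (l : ℕ) (hl : (l : ℤ) ≤ sp v S + sn v S - 2 * α + 1)
    (hbig : A.subsetSum.card < 2 * l * q) :
    (sp v (A.filter (fun x => v x ≠ 0)) + sn v (A.filter (fun x => v x ≠ 0)) - |v a| - 2 * α + 1) *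
      q ≤ A.subsetSum.card := by
  have hqpos : 0 < q := by rw [hq]; exact Nat.card_pos
  obtain ⟨A0, hA0⟩ : ∃ A0, A0 = A.filter (fun x => v x = 0) := ⟨_, rfl⟩
  obtain ⟨A1, hA1⟩ : ∃ A1, A1 = A.filter (fun x => v x ≠ 0) := ⟨_, rfl⟩
  have hA1A : A1 ⊆ A := by rw [hA1]; exact Finset.filter_subset _ _
  have hA0A : A0 ⊆ A := by rw [hA0]; exact Finset.filter_subset _ _
  have hcardA : A0.card + A1.card = m := by
    rw [hA0, hA1, ← hm]
    exact Finset.card_filter_add_card_filter_not _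
  have hdisj01 : Disjoint A0 A1 := by
    rw [Finset.disjoint_left]
    intro x hx hx1
    rw [hA0, Finset.mem_filter] at hx
    rw [hA1, Finset.mem_filter] at hx1
    exact hx1.2 hx.2
  have hA0ker : ∀ x ∈ A0, x ∈ w.ker := by
    intro x hx
    rw [hA0, Finset.mem_filter] at hx
    rw [AddMonoidHom.mem_ker, ← hv, hx.2, Int.cast_zero]
  have haA1 : a ∈ A1 := by rw [hA1, Finset.mem_filter]; exact ⟨ha, hva⟩
  -- the interval property of `A \ a`
  have hIv' : Iv w v (A.erase a) α := by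
    have h1 := Iv_all w hsurj v A S α hIv hv hvW l hl (by rw [← hq]; exact hbig)
      (A.erase a \ S) Finset.disjoint_sdiff
    have h2 : S ∪ (A.erase a \ S) = A.erase a := by
      apply Finset.union_sdiff_of_subset
      intro x hx
      rw [Finset.mem_erase]
      exact ⟨fun h => haS (h ▸ hx), hSA hx⟩
    rw [h2] at h1
    exact h1 (Finset.erase_subset _ _)
  have hH3 : ∀ y : ℤ, -sn v (A.erase a) + α ≤ y → y + α ≤ sp v (A.erase a) →
      ¬ (W : ℤ) ∣ (y + v a) := by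
    intro y h1 h2 h3
    have h4 := hIv' (-a) y h1 h2 (by
      rw [map_neg, ← hv, eq_neg_iff_add_eq_zero]
      have : ((y + v a : ℤ) : ZMod W) = 0 := (ZMod.intCast_zmod_eq_zero_iff_dvd _ _).2 h3
      rw [← this]
      push_cast
      ring)
    refine neg_notMem_of_ZSF (A.erase a) a (Finset.notMem_erase _ _) ?_ h4
    rw [Finset.insert_erase ha]
    exact hZ
  have hlen := len_lt W hW _ _ α (v a) hH3
  -- restriction to nonzero weights
  have hsnA1 : sn v (A1.erase a) = sn v (A.erase a) := by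
    unfold sn
    apply Finset.sum_subset (Finset.erase_subset_erase _ hA1A)
    intro x hx hx1
    rw [Finset.mem_erase] at hx hx1
    have : v x = 0 := by
      by_contra hc
      exact hx1 ⟨hx.1, by rw [hA1, Finset.mem_filter]; exact ⟨hx.2, hc⟩⟩
    rw [this]; rfl
  have hspA1 : sp v (A1.erase a) = sp v (A.erase a) := by
    unfold sp
    apply Finset.sum_subset (Finset.erase_subset_erase _ hA1A)
    intro x hx hx1
    rw [Finset.mem_erase] at hx hx1
    have : v x = 0 := by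
      by_contra hc
      exact hx1 ⟨hx.1, by rw [hA1, Finset.mem_filter]; exact ⟨hx.2, hc⟩⟩
    rw [this]; rfl
  have hwA : sp v (A.erase a) + sn v (A.erase a) + |v a| = sp v A1 + sn v A1 := by
    rw [← hsnA1, ← hspA1, sp_add_sn, sp_add_sn, Finset.sum_erase_add _ _ haA1]
  -- counting
  have hcnt : (sp v A1 + sn v A1 - |v a| - 2 * α + 1) * q ≤ A.subsetSum.card := by
    by_cases hneg : sp v A1 + sn v A1 - |v a| - 2 * α + 1 ≤ 0
    · have : (sp v A1 + sn v A1 - |v a| - 2 * α + 1) * q ≤ 0 :=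
        mul_nonpos_of_nonpos_of_nonneg hneg (by positivity)
      have h0 : (0 : ℤ) ≤ A.subsetSum.card := by positivity
      omega
    push Not at hneg
    have h1 := count_fibers w hsurj
      (Finset.Icc (-sn v (A.erase a) + α) (sp v (A.erase a) - α)) A.subsetSum (by
        intro z hz x hx
        rw [Finset.mem_Icc] at hz
        exact Pool.Agent.Helper398.subsetSum_mono (Finset.erase_subset _ _) (hIv' x z hz.1 (by omega) hx)) (by
        intro z hz z' hz' _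
        rw [Finset.mem_Icc] at hz hz'
        omega)
    rw [Int.card_Icc, ← hq] at h1
    have h2 : (((sp v (A.erase a) - α + 1 - (-sn v (A.erase a) + α)).toNat : ℕ) : ℤ) =
        sp v A1 + sn v A1 - |v a| - 2 * α + 1 := by omega
    rw [← h2]
    exact_mod_cast h1
  rw [← hA1]
  exact hcnt

theorem numB2 (m q s l w : ℕ) (α : ℤ) (T : ℕ) (hm : 10 ^ 24 ≤ m) (hq : 1 ≤ q) (hα : 1 ≤ α)
    (hqm : 1000000 * q ≤ 1000001 * m)
    (hsmall : q < 6 * 10 ^ 10 → 1000 * (q * α) ≤ m)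
    (hlarge : 6 * 10 ^ 10 ≤ q → 700 * α ≤ m) (hsm : 999999 * m ≤ 1000000 * s)
    (hw : s ^ 2 + q * s ≤ 2 * (q * w)) (hl : (w : ℤ) - 2 * α + 1 ≤ l)
    (hT : 2 * T ≤ m ^ 2 + 3 * m + 2) : T < 2 * l * q := by
  have hq0 : (0 : ℤ) < q := by omega
  have hmm : (10 ^ 24 : ℤ) * m ≤ m * m := by
    apply mul_le_mul_of_nonneg_right _ (by omega)
    exact_mod_cast hm
  have h1 : 700 * ((q : ℤ) * α) ≤ 2 * (m * m) := by
    rcases Nat.lt_or_ge q (6 * 10 ^ 10) with h | h
    · have := hsmall h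
      have hm' : (10 ^ 24 : ℤ) ≤ m := by exact_mod_cast hm
      linarith
    · have h2 := hlarge h
      have h3 : (q : ℤ) * (700 * α) ≤ q * m := mul_le_mul_of_nonneg_left h2 hq0.le
      have h4 : (1000000 * (q : ℤ)) * m ≤ (1000001 * m) * m :=
        mul_le_mul_of_nonneg_right (by exact_mod_cast hqm) (by omega)
      have hm' : (0 : ℤ) ≤ m * m := by positivity
      linarith
  have h2 : (999999 * (m : ℤ)) ^ 2 ≤ (1000000 * (s : ℤ)) ^ 2 := by
    apply pow_le_pow_left₀ (by positivity)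
    exact_mod_cast hsm
  have h3 : (s : ℤ) ^ 2 + q * s ≤ 2 * (q * w) := by exact_mod_cast hw
  have h4 : (q : ℤ) * ((w : ℤ) - 2 * α + 1) ≤ q * l := mul_le_mul_of_nonneg_left hl hq0.le
  have h5 : (2 * (T : ℤ)) ≤ m ^ 2 + 3 * m + 2 := by
    exact_mod_cast hT
  have h6 : (T : ℤ) < 2 * l * q := by
    have h7 : (0 : ℤ) ≤ (q : ℤ) * s := by positivity
    have h8 : (10 ^ 24 : ℤ) * 10 ^ 24 ≤ m * m := by
      apply mul_le_mul _ _ (by norm_num) (by positivity) <;> exact_mod_cast hm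
    have e1 : (999999 * (m : ℤ)) ^ 2 = 999998000001 * (m * m) := by ring
    have e2 : (1000000 * (s : ℤ)) ^ 2 = 1000000000000 * s ^ 2 := by ring
    have e3 : (m : ℤ) ^ 2 = m * m := by ring
    rw [e1, e2] at h2
    rw [e3] at h5
    have e4 : (q : ℤ) * ((w : ℤ) - 2 * α + 1) = q * w - 2 * (q * α) + q := by ring
    rw [e4] at h4
    have e5 : 2 * (l : ℤ) * q = 2 * (q * l) := by ring
    rw [e5]
    linarith
  exact_mod_cast h6

theorem num_small (m q t x wA j w2 : ℕ) (va α : ℤ) (T : ℕ) (hm : 10 ^ 24 ≤ m) (hq : 0 < q)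
    (hqs : q < 6 * 10 ^ 10) (hva : va ≤ α) (hα : 1000 * ((q : ℤ) * α) ≤ m)
    (hj : 1000 * (q * j) ≤ m) (hw2 : w2 ≤ wA + j) (hw3 : (x + 2) ^ 2 + q * (x + 2) ≤ 2 * (q * w2))
    (ht : 2 * t ≤ q) (hmx : t + x = m)
    (hcnt : ((wA : ℤ) - va - 2 * α + 1) * q ≤ T) (hsum : 2 * T ≤ m ^ 2 + 3 * m + 2) : False := by
  have hq0 : (0 : ℤ) < q := by exact_mod_cast hq
  have e1 : (q : ℤ) * va ≤ q * α := mul_le_mul_of_nonneg_left hva hq0.le
  have e2 : (2 * (T : ℤ)) ≤ m ^ 2 + 3 * m + 2 := by exact_mod_cast hsum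
  have e3 : ((x : ℤ) + 2) ^ 2 + q * (x + 2) ≤ 2 * (q * w2) := by exact_mod_cast hw3
  have e4 : (q : ℤ) * w2 ≤ q * (wA + j) :=
    mul_le_mul_of_nonneg_left (by exact_mod_cast hw2) hq0.le
  have e5 : 1000 * ((q : ℤ) * j) ≤ m := by exact_mod_cast hj
  have e6 : (x : ℤ) = m - t := by have : (t : ℤ) + x = m := by exact_mod_cast hmx
                                  linarith
  rw [e6] at e3
  have e7 : ((wA : ℤ) - va - 2 * α + 1) * q = q * wA - q * va - 2 * (q * α) + q := by ring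
  rw [e7] at hcnt
  have e8 : (q : ℤ) * (wA + j) = q * wA + q * j := by ring
  rw [e8] at e4
  have e9 : ((m : ℤ) - t + 2) ^ 2 + q * (m - t + 2) =
      m ^ 2 + 4 * m + (q - 2 * t) * m + (2 - t) ^ 2 + q * 2 - q * t := by ring
  rw [e9] at e3
  have e10 : (0 : ℤ) ≤ ((q : ℤ) - 2 * t) * m := by
    apply mul_nonneg
    · have : (2 * (t : ℤ)) ≤ q := by exact_mod_cast ht
      linarith
    · positivity
  have e11 : (q : ℤ) * t ≤ (6 * 10 ^ 10) * (6 * 10 ^ 10) := by
    apply mul_le_mul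
    · exact_mod_cast hqs.le
    · have : t ≤ 6 * 10 ^ 10 := by omega
      exact_mod_cast this
    · positivity
    · norm_num
  have e12 : (0 : ℤ) ≤ (2 - (t : ℤ)) ^ 2 := sq_nonneg _
  have e13 : (10 ^ 24 : ℤ) ≤ m := by exact_mod_cast hm
  linarith

theorem num_large (m q t x wA w2 : ℕ) (va α : ℤ) (T : ℕ) (hm : 10 ^ 24 ≤ m)
    (hqs : 6 * 10 ^ 10 ≤ q) (hva : va ≤ α) (hα : 700 * α ≤ m) (ht : 8 * t ≤ q)
    (hqm : 1000000 * q ≤ 1000001 * m) (hw2 : w2 ≤ wA) (hw3 : x ^ 2 + q * x ≤ 2 * (q * w2))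
    (hmx : t + x = m)
    (hcnt : ((wA : ℤ) - va - 2 * α + 1) * q ≤ T) (hsum : 2 * T ≤ m ^ 2 + 3 * m + 2) : False := by
  have hq0 : (0 : ℤ) < q := by
    have : 0 < q := by omega
    exact_mod_cast this
  have e1 : (q : ℤ) * va ≤ q * α := mul_le_mul_of_nonneg_left hva hq0.le
  have e1' : (q : ℤ) * (700 * α) ≤ q * m := mul_le_mul_of_nonneg_left hα hq0.le
  have e2 : (2 * (T : ℤ)) ≤ m ^ 2 + 3 * m + 2 := by exact_mod_cast hsum
  have e3 : (x : ℤ) ^ 2 + q * x ≤ 2 * (q * w2) := by exact_mod_cast hw3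
  have e4 : (q : ℤ) * w2 ≤ q * wA :=
    mul_le_mul_of_nonneg_left (by exact_mod_cast hw2) hq0.le
  have e6 : (x : ℤ) = m - t := by have : (t : ℤ) + x = m := by exact_mod_cast hmx
                                  linarith
  rw [e6] at e3
  have e7 : ((wA : ℤ) - va - 2 * α + 1) * q = q * wA - q * va - 2 * (q * α) + q := by ring
  rw [e7] at hcnt
  have e9 : ((m : ℤ) - t) ^ 2 + q * (m - t) =
      m ^ 2 + q * m - 2 * (t * m) + t ^ 2 - q * t := by ring
  rw [e9] at e3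
  have e10 : (8 * (t : ℤ)) * m ≤ q * m := mul_le_mul_of_nonneg_right (by exact_mod_cast ht)
    (by positivity)
  have e11 : (8 * (t : ℤ)) * q ≤ q * q := mul_le_mul_of_nonneg_right (by exact_mod_cast ht)
    (by positivity)
  have e12 : (0 : ℤ) ≤ (t : ℤ) ^ 2 := sq_nonneg _
  have e13 : (1000000 * (q : ℤ)) * q ≤ (1000001 * m) * q :=
    mul_le_mul_of_nonneg_right (by exact_mod_cast hqm) hq0.le
  have e14 : (6 * 10 ^ 10 : ℤ) * m ≤ q * m := mul_le_mul_of_nonneg_right (by exact_mod_cast hqs)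
    (by positivity)
  have e15 : (10 ^ 24 : ℤ) ≤ m := by exact_mod_cast hm
  linarith

theorem assemble2 {W : ℕ} (hW : 0 < W) (w : G →+ ZMod W) (hsurj : Function.Surjective w)
    (A R : Finset G) (hZ : ZSF A) (hRA : R ⊆ A) (m q L : ℕ) (hm : A.card = m)
    (hM : 10 ^ 24 ≤ m) (hq : q = Nat.card w.ker) (hL0 : 0 < L) (hLW : L < W)
    (hR : ∀ t ∈ R, |(w t).valMinAbs| ≤ L) (hqL : 1000000 * (q * L) ≤ 1000001 * m)
    (hR1 : 9999999 * m ≤ 10000000 * (R.filter (fun x => w x ≠ 0)).card)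
    (ht : 6 * 10 ^ 10 ≤ q → 8 * (A.filter (fun x => w x = 0)).card ≤ q)
    (hsum : 2 * A.subsetSum.card ≤ m ^ 2 + 3 * m + 2)
    (hmiss : q < 6 * 10 ^ 10 → ∃ j1 j2 : ℕ, 1000 * (q * (j1 + j2)) ≤ m ∧
      Wq q ((A.filter (fun x => w x ≠ 0)).card + 2) ≤
        ∑ x ∈ A.filter (fun x => w x ≠ 0), (w x).valMinAbs.natAbs + (j1 + j2)) : False := by
  have : NeZero W := ⟨by omega⟩
  have hqpos : 0 < q := by rw [hq]; exact Nat.card_pos
  obtain ⟨v, hvdef⟩ : ∃ v : G → ℤ, v = fun x => (w x).valMinAbs := ⟨_, rfl⟩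
  have hv : ∀ x, (v x : ZMod W) = w x := by
    intro x; rw [hvdef]; exact ZMod.coe_valMinAbs _
  have hvW : ∀ x, 2 * |v x| ≤ W := by
    intro x
    have h := ZMod.valMinAbs_mem_Ioc (w x)
    rw [Set.mem_Ioc] at h
    have h1 : v x = (w x).valMinAbs := by rw [hvdef]
    rw [← h1] at h
    rcases le_total 0 (v x) with h2 | h2
    · rw [abs_of_nonneg h2]; omega
    · rw [abs_of_nonpos h2]; omega
  have hv0 : ∀ x, v x = 0 ↔ w x = 0 := by
    intro x; rw [hvdef]; exact ZMod.valMinAbs_eq_zero _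
  obtain ⟨R1, hR1def⟩ : ∃ R1, R1 = R.filter (fun x => w x ≠ 0) := ⟨_, rfl⟩
  rw [← hR1def] at hR1
  have hR1A : R1 ⊆ A := by rw [hR1def]; exact (Finset.filter_subset _ _).trans hRA
  have hR1v : ∀ s ∈ R1, v s ≠ 0 ∧ |v s| ≤ L := by
    intro s hs
    rw [hR1def, Finset.mem_filter] at hs
    refine ⟨fun h => hs.2 ((hv0 s).1 h), ?_⟩
    have := hR s hs.1
    rw [hvdef]
    exact this
  have hR1le : R1.card ≤ q * L := by
    have h := card_le_mult w v hv A R1 hZ hR1A 0 L (by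
      intro s hs
      have h := hR1v s hs
      exact ⟨by have := abs_pos.2 h.1; simpa using this, h.2⟩)
    rw [hq]
    simpa using h
  obtain ⟨s, hs⟩ : ∃ s, s = R1.card - 1 := ⟨_, rfl⟩
  obtain ⟨D, hD⟩ : ∃ D, D = q * L - s := ⟨_, rfl⟩
  have hsL : q * L ≤ s + D := by omega
  have hsq : s ≤ q * L := by omega
  have hD5 : 500000 * D ≤ m := by omega
  have hsm : 999999 * m ≤ 1000000 * s := by omega
  obtain ⟨k, hk1, hk2⟩ := exists_k q hqpos
  obtain ⟨h2E, h2E1, h2E2, h2E3⟩ := div_facts q (D + 2 * k) hqpos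
  have hn1 := num1 m q L D k s hM hqpos hk2 hsL hsq hqL hD5 hsm hL0
  have hn2 := num2 m q L D k s hM hqpos hk2 hsL hsq hqL hD5 hsm hL0
  obtain ⟨J0, hJ0⟩ : ∃ J0, J0 = 2 * (D + 2 * k) / q + 1 := ⟨_, rfl⟩
  have hJ0L : J0 ≤ L := by
    rw [hJ0]
    have : 2 * (D + 2 * k) / q < L := by
      rw [Nat.div_lt_iff_lt_mul hqpos, mul_comm L q]
      exact hn1
    omega
  rw [← hJ0] at h2E1 h2E2 h2E3
  -- the small element
  have hexa : ∃ a ∈ R1, |v a| ≤ J0 := by
    by_contra hcon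
    push Not at hcon
    have h := card_le_mult w v hv A R1 hZ hR1A J0 L (fun s hs => ⟨hcon s hs, (hR1v s hs).2⟩)
    rw [← hq, Nat.mul_sub] at h
    have h3 : q * J0 = J0 * q := mul_comm _ _
    have h4 : q * J0 ≤ q * L := Nat.mul_le_mul_left _ hJ0L
    omega
  obtain ⟨a, haR1, haJ⟩ := hexa
  obtain ⟨S, hS⟩ : ∃ S, S = R1.erase a := ⟨_, rfl⟩
  have hScard : S.card = s := by rw [hS, Finset.card_erase_of_mem haR1, hs]
  have hSR1 : S ⊆ R1 := by rw [hS]; exact Finset.erase_subset _ _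
  have hasym : ∀ x ∈ S, ∀ y ∈ S, x ≠ y → x + y ≠ 0 := by
    intro x hx y hy hne h
    apply hZ {x, y} (by
      intro z hz; simp at hz; rcases hz with rfl | rfl
      · exact hR1A (hSR1 hx)
      · exact hR1A (hSR1 hy)) (by simp)
    rw [Finset.sum_pair hne, h]
  obtain ⟨αn, hαn⟩ : ∃ αn : ℕ, αn = k * J0 + (2 * ((D + 2 * k) / q) + 3) := ⟨_, rfl⟩
  have hIv := signed_cover w S v L D J0 k hW
    (fun x hx => ⟨(hR1v x (hSR1 hx)).1, (hR1v x (hSR1 hx)).2, hv x⟩) hasym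
    (by rw [← hq, hScard]; exact hsL) (by rw [← hq]; exact hk1) (by rw [← hq]; exact h2E1)
    hJ0L hLW (by rw [← hq]; exact hn2)
  rw [← hq, ← hαn] at hIv
  have hα1 : (1 : ℤ) ≤ (αn : ℤ) := by
    rw [hαn]
    push_cast
    have h1 : (0 : ℤ) ≤ k * J0 := by positivity
    have h2 : (0 : ℤ) ≤ ((D : ℤ) + 2 * k) / q := by positivity
    linarith
  have haα : |v a| ≤ (αn : ℤ) := by
    refine haJ.trans ?_
    have : J0 ≤ αn := by rw [hαn]; omega
    exact_mod_cast this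
  have hqm : 1000000 * q ≤ 1000001 * m := by
    have : q * 1 ≤ q * L := Nat.mul_le_mul_left _ hL0
    omega
  have hsmall : q < 6 * 10 ^ 10 → 1000 * ((q : ℤ) * (αn : ℤ)) ≤ m := by
    intro h
    have h1 := num3 m q L D k s hM hqpos hk2 hD5 h
    rw [← hJ0, ← hαn] at h1
    exact_mod_cast h1
  have hlarge : 6 * 10 ^ 10 ≤ q → 700 * (αn : ℤ) ≤ m := by
    intro h
    have h1 := num4 m q L D k hM hqpos hk2 hqm hD5 h
    rw [← hJ0, ← hαn] at h1
    exact_mod_cast h1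
  -- the weight of S
  have hSv : ∀ i ∈ S, 1 ≤ (v i).natAbs := by
    intro i hi
    have := Int.natAbs_pos.2 (hR1v i (hSR1 hi)).1
    omega
  have hmul : ∀ j : ℕ, (S.filter (fun i => (v i).natAbs = j)).card ≤ q := by
    intro j
    rcases Nat.eq_zero_or_pos j with hj | hj
    · have : S.filter (fun i => (v i).natAbs = j) = ∅ := by
        rw [Finset.filter_eq_empty_iff]
        intro x hx hc
        have := hSv x hx
        omega
      rw [this]; simp
    · rw [hq]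
      refine le_trans (Finset.card_le_card ?_) (mult_le w v hv A hZ (j : ℤ) (by omega))
      intro x hx
      rw [Finset.mem_filter] at hx ⊢
      refine ⟨hR1A (hSR1 hx.1), ?_⟩
      rw [Int.abs_eq_natAbs, hx.2]
  have hwS := wsum_ge q hqpos (fun i => (v i).natAbs) S hSv hmul
  have hwsum : ((∑ i ∈ S, (v i).natAbs : ℕ) : ℤ) = sp v S + sn v S := by
    rw [sp_add_sn]
    push_cast
    apply Finset.sum_congr rfl
    intro s _
    rfl
  rw [hScard] at hwS
  have hWq := Wq_ge q hqpos s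
  obtain ⟨l, hl⟩ : ∃ l : ℕ, l = (sp v S + sn v S - 2 * (αn : ℤ) + 1).toNat := ⟨_, rfl⟩
  have hwS' : (Wq q s : ℤ) ≤ sp v S + sn v S := by
    rw [← hwsum]; exact_mod_cast hwS
  have hbig : A.subsetSum.card < 2 * l * q := by
    apply numB2 m q s l (Wq q s) (αn : ℤ) A.subsetSum.card hM hqpos hα1 hqm hsmall hlarge hsm hWq _
      hsum
    omega
  have hlpos : (l : ℤ) ≤ sp v S + sn v S - 2 * (αn : ℤ) + 1 := by
    have : 0 < l := by
      rcases Nat.eq_zero_or_pos l with h | h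
      · rw [h] at hbig; simp at hbig
      · exact h
    omega
  have hcnt := count2 hW w hsurj v hv hvW A S hZ m q hm hq (hSR1.trans hR1A) a (hR1A haR1)
    (by rw [hS]; exact Finset.notMem_erase _ _) (hR1v a haR1).1 (αn : ℤ) hα1 hIv l hlpos hbig
  obtain ⟨A0, hA0⟩ : ∃ A0, A0 = A.filter (fun x => v x = 0) := ⟨_, rfl⟩
  obtain ⟨A1, hA1⟩ : ∃ A1, A1 = A.filter (fun x => v x ≠ 0) := ⟨_, rfl⟩
  have hA0A : A0 ⊆ A := by rw [hA0]; exact Finset.filter_subset _ _
  have hcardA : A0.card + A1.card = m := by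
    rw [hA0, hA1, ← hm]
    exact Finset.card_filter_add_card_filter_not _
  have hA0w : A0 = A.filter (fun x => w x = 0) := by
    rw [hA0]
    ext x
    rw [Finset.mem_filter, Finset.mem_filter, hv0]
  have hA1w : A1 = A.filter (fun x => w x ≠ 0) := by
    rw [hA1]
    ext x
    rw [Finset.mem_filter, Finset.mem_filter, Ne, Ne, hv0]
  have hA0ker : ∀ x ∈ A0, x ∈ w.ker := by
    intro x hx
    rw [hA0w, Finset.mem_filter] at hx
    rw [AddMonoidHom.mem_ker]
    exact hx.2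
  rw [← hA1, sp_add_sn] at hcnt
  have hwA : ((∑ i ∈ A1, (v i).natAbs : ℕ) : ℤ) = ∑ i ∈ A1, |v i| := by
    push_cast
    rfl
  rw [← hwA] at hcnt
  obtain ⟨wA, hwAd⟩ : ∃ wA : ℕ, wA = ∑ i ∈ A1, (v i).natAbs := ⟨_, rfl⟩
  rw [← hwAd] at hcnt
  obtain ⟨t, htd⟩ : ∃ t, t = A0.card := ⟨_, rfl⟩
  obtain ⟨x, hxd⟩ : ∃ x, x = A1.card := ⟨_, rfl⟩
  rw [← htd, ← hxd] at hcardA
  have ht2q : 2 * t ≤ q := by
    rcases small_zsf w.ker A0 (hZ.mono hA0A) hA0ker with hcase | ⟨hc1, _, _, _⟩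
    · rw [← hq, ← htd] at hcase
      omega
    · rw [← hq, ← htd] at hc1
      omega
  rcases Nat.lt_or_ge q (6 * 10 ^ 10) with hqs | hqs
  · obtain ⟨j1, j2, hj1, hj2⟩ := hmiss hqs
    rw [← hA1w, ← hxd] at hj2
    have hj3 : ∑ x ∈ A1, (w x).valMinAbs.natAbs = wA := by
      rw [hwAd, hvdef]
    rw [hj3] at hj2
    exact num_small m q t x wA (j1 + j2) (Wq q (x + 2)) (|v a|) (αn : ℤ) A.subsetSum.card hM hqpos hqs
      haα (hsmall hqs) hj1 hj2 (Wq_ge q hqpos (x + 2)) ht2q hcardA hcnt hsum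
  · have hge := wsum_ge q hqpos (fun i => (v i).natAbs) A1 (by
      intro i hi
      rw [hA1, Finset.mem_filter] at hi
      have := Int.natAbs_pos.2 hi.2
      omega) (by
      intro j
      rcases Nat.eq_zero_or_pos j with hj | hj
      · have : A1.filter (fun i => (v i).natAbs = j) = ∅ := by
          rw [Finset.filter_eq_empty_iff]
          intro x hx hc
          rw [hA1, Finset.mem_filter] at hx
          rw [hj, Int.natAbs_eq_zero] at hc
          exact hx.2 hc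
        rw [this]; simp
      · rw [hq]
        refine le_trans (Finset.card_le_card ?_) (mult_le w v hv A hZ (j : ℤ) (by omega))
        intro x hx
        rw [Finset.mem_filter] at hx ⊢
        refine ⟨(by rw [hA1] at hx; exact (Finset.mem_filter.1 hx.1).1), ?_⟩
        rw [Int.abs_eq_natAbs, hx.2])
    rw [← hwAd, ← hxd] at hge
    have h8 := ht hqs
    rw [← hA0w, ← htd] at h8
    exact num_large m q t x wA (Wq q x) (|v a|) (αn : ℤ) A.subsetSum.card hM hqs
      haα (hlarge hqs) h8 hqm hge (Wq_ge q hqpos x) hcardA hcnt hsum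

end Pool.Agent.Q248.ZU
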