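import Mathlib
import Pool.Agent.Q248.ZU.Count

/-!
The structure part of `Pool.Agent.Helper398.main_top` for sets whose number of subset sums is at most
`(m² + 3 m + 2) / 2`.
-/

set_option autoImplicit false
set_option linter.unusedSectionVars false

open Finset
open scoped Pointwise

namespace Pool.Agent.Q248.ZU

open Pool.Agent.Helper398

theorem near_arith2 (κ m a T : ℝ) (hκ : 0 < κ) (hκ1 : κ ≤ 1) (hm : 1 ≤ m)
    (hm2 : 10 / κ ≤ m) (ha : (1 - κ / 8) * m ≤ a) (hT : T ≤ m ^ 2 / 2 + 3 * m / 2 + 1) :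
    T ≤ (1 + κ) * (1 / 2) * a ^ 2 := by
  have h1 : ((1 - κ / 8) * m) ^ 2 ≤ a ^ 2 := pow_le_pow_left₀ (by nlinarith) ha 2
  rw [div_le_iff₀ hκ] at hm2
  have h2 : (1 + κ) * ((1 - κ / 8) * m) ^ 2 ≥ (1 + κ / 2) * m ^ 2 := by
    have h3 : (1 + κ) * (1 - κ / 8) ^ 2 ≥ 1 + κ / 2 := by
      have e : (1 + κ) * (1 - κ / 8) ^ 2 - (1 + κ / 2) =
          κ * (1 - κ) / 4 + κ ^ 2 / 64 * (1 + κ) := by ring
      have e1 : 0 ≤ κ * (1 - κ) / 4 := by
        have : 0 ≤ κ * (1 - κ) := mul_nonneg hκ.le (by linarith)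
        linarith
      have e2 : 0 ≤ κ ^ 2 / 64 * (1 + κ) := by positivity
      linarith
    have h4 := mul_le_mul_of_nonneg_right h3 (by positivity : (0 : ℝ) ≤ m ^ 2)
    nlinarith
  have h5 : (1 + κ) * ((1 - κ / 8) * m) ^ 2 ≤ (1 + κ) * a ^ 2 :=
    mul_le_mul_of_nonneg_left h1 (by linarith)
  have h6 : 10 * m ≤ m * κ * m := mul_le_mul_of_nonneg_right hm2 (by linarith)
  nlinarith

theorem main2 : ∃ M : ℕ, ∀ (G : Type) [AddCommGroup G] [Finite G] [DecidableEq G]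
    (A : Finset G), AddSubgroup.closure (A : Set G) = ⊤ → ZSF A → M ≤ A.card →
    2 * A.subsetSum.card ≤ A.card ^ 2 + 3 * A.card + 2 →
    (∀ (W : ℕ) (w : G →+ ZMod W), 0 < W → Function.Surjective w →
      Nat.card w.ker < 6 * 10 ^ 10 → ∃ j1 j2 : ℕ, 1000 * (Nat.card w.ker * (j1 + j2)) ≤ A.card ∧
        Wq (Nat.card w.ker) ((A.filter (fun x => w x ≠ 0)).card + 2) ≤
          ∑ x ∈ A.filter (fun x => w x ≠ 0), (w x).valMinAbs.natAbs + (j1 + j2)) → False := by
  obtain ⟨d, hd⟩ : ∃ d : ℝ, d = 1 / 10 ^ 10 := ⟨_, rfl⟩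
  obtain ⟨δ, hδ⟩ : ∃ δ : ℝ, δ = 1 / 10 ^ 7 := ⟨_, rfl⟩
  have hd0 : 0 < d := by rw [hd]; norm_num
  have hd1 : d ≤ 1 / 10 ^ 10 := hd.le
  have hδ0 : 0 < δ := by rw [hδ]; norm_num
  obtain ⟨η, hη⟩ : ∃ η : ℝ, η = d ^ 2 / 64 := ⟨_, rfl⟩
  have hη0 : 0 < η := by rw [hη]; positivity
  have hη4 : η < 1 / 4 := by rw [hη]; nlinarith
  have hbt0 : 0 ≤ bet η := by unfold bet thr; positivity
  obtain ⟨M1, hM1⟩ := near_eq_abs d hd0 (by linarith) (bet η) hbt0
  obtain ⟨c, hc⟩ : ∃ c : ℝ, c = (d ^ 2 / 64) ^ 2 / 288 := ⟨_, rfl⟩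
  have hc0 : 0 < c := by rw [hc]; positivity
  obtain ⟨M2, hM2⟩ := core δ c hδ0 (by rw [hδ]; norm_num) hc0
  obtain ⟨M3, hM3⟩ := lower (9 / 20) (by norm_num)
  obtain ⟨κ, hκ⟩ : ∃ κ : ℝ, κ = d ^ 2 / 16 := ⟨_, rfl⟩
  have hκ0 : 0 < κ := by rw [hκ]; positivity
  have hκ1 : κ ≤ 1 / 10 ^ 10 := by rw [hκ]; nlinarith
  obtain ⟨M4, hM4⟩ := exists_nat_gt (27 / (κ / 8) ^ 3 + 10 / κ)
  refine ⟨10 ^ 24 + 2 * M1 + M2 + 2 * M3 + M4, ?_⟩
  intro G _ _ _ A hcl hZ hM hsum hmiss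
  obtain ⟨m, hm⟩ : ∃ m, m = A.card := ⟨_, rfl⟩
  rw [← hm] at hM hsum
  have hm24 : 10 ^ 24 ≤ m := by omega
  have hmr : (10 ^ 24 : ℝ) ≤ m := by exact_mod_cast hm24
  have hm0 : (0 : ℝ) < m := by linarith
  have hm4 : 27 / (κ / 8) ^ 3 + 10 / κ < (m : ℝ) := by
    have : (M4 : ℝ) ≤ m := by
      have : M4 ≤ m := by omega
      exact_mod_cast this
    linarith
  have hsumr : (A.subsetSum.card : ℝ) ≤ (m : ℝ) ^ 2 / 2 + 3 * m / 2 + 1 := by
    have h2 : (2 : ℝ) * A.subsetSum.card ≤ (m : ℝ) ^ 2 + 3 * m + 2 := by exact_mod_cast hsum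
    linarith
  have hmm : (10 ^ 24 : ℝ) * m ≤ (m : ℝ) ^ 2 := by
    rw [sq]; exact mul_le_mul_of_nonneg_right hmr hm0.le
  -- remove the involutions
  obtain ⟨A', hA'⟩ : ∃ A', A' = A.filter (fun x => x + x ≠ 0) := ⟨_, rfl⟩
  obtain ⟨hNI, hZ', hcard'⟩ := split_invol A hZ
  have hinv := invol_small A hZ
  rw [← hA'] at hNI hZ' hcard'
  rw [← hm] at hcard'
  obtain ⟨r, hr⟩ : ∃ r, r = (A.filter (fun x => x + x = 0)).card := ⟨_, rfl⟩
  rw [← hr] at hinv hcard'
  have hA'A : A' ⊆ A := by rw [hA']; exact Finset.filter_subset _ _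
  have hrb : (r : ℝ) ≤ κ / 8 * m := by
    apply invol_bound (T := A.subsetSum.card) (by positivity)
    · exact_mod_cast hinv
    · linarith
    · have : 0 < 10 / κ := by positivity
      linarith
  have hcard'r : (A'.card : ℝ) = m - r := by
    have : (A'.card : ℝ) + r = m := by exact_mod_cast hcard'
    linarith
  have hA'big : (1 - κ / 8) * m ≤ A'.card := by rw [hcard'r]; linarith
  have hA'le : (A'.card : ℝ) ≤ m := by rw [hcard'r]; linarith [Nat.cast_nonneg (α := ℝ) r]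
  have hA'half : (m : ℝ) / 2 ≤ A'.card := by
    have h1 : (1 / 2 : ℝ) ≤ 1 - κ / 8 := by linarith
    have h2 := mul_le_mul_of_nonneg_right h1 hm0.le
    linarith
  have hM1A : M1 ≤ A'.card := by
    have h1 : (2 * M1 : ℝ) ≤ m := by
      have : 2 * M1 ≤ m := by omega
      exact_mod_cast this
    have h2 : (M1 : ℝ) ≤ A'.card := by linarith
    exact_mod_cast h2
  have hsumA' : A'.subsetSum.card ≤ A.subsetSum.card :=
    Finset.card_le_card (Pool.Agent.Helper398.subsetSum_mono hA'A)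
  have hsumA'r : (A'.subsetSum.card : ℝ) ≤ (m : ℝ) ^ 2 / 2 + 3 * m / 2 + 1 :=
    le_trans (by exact_mod_cast hsumA') hsumr
  have hnear : (A'.subsetSum.card : ℝ) ≤ (1 + κ) * (1 / 2) * (A'.card : ℝ) ^ 2 := by
    apply near_arith2 κ m A'.card _ hκ0 (by linarith) (by linarith) _ hA'big hsumA'r
    have h1 : 0 < 27 / (κ / 8) ^ 3 := by positivity
    linarith
  have hind : ∀ X ⊆ A', (X.subsetSum.card : ℝ) + 1 * (1 / 2 - 2 * (d ^ 2 / 64)) *
      ((A' \ X).card : ℝ) ^ 2 - bet η * (A' \ X).card ≤ A'.subsetSum.card := by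
    intro X hX
    have hun : X ∪ (A' \ X) = A' := Finset.union_sdiff_of_subset hX
    have h := main_ind η hη0 hη4 (A' \ X).card X (A' \ X) Finset.disjoint_sdiff
      (by rw [hun]; exact hZ') (by rw [hun]; exact hNI) rfl
    rw [hun, hη] at h
    rw [one_mul, hη]
    exact h
  obtain ⟨X, hXA, rho, hX1, hrho1, hrho2, hgr, hXS⟩ := hM1 G 1 (by norm_num) le_rfl A' hind hM1A
    (by rw [← hκ]; exact hnear)
  obtain ⟨R, hR⟩ : ∃ R, R = A' \ X := ⟨_, rfl⟩
  rw [← hR] at hrho1 hgr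
  have hRA' : R ⊆ A' := by rw [hR]; exact Finset.sdiff_subset
  have hRA : R ⊆ A := hRA'.trans hA'A
  have hRcard : R.card ≤ m := by rw [hm]; exact Finset.card_le_card hRA
  have hrho1r : (rho : ℝ) ≤ R.card := by exact_mod_cast hrho1
  have hRcardr : (R.card : ℝ) ≤ m := by exact_mod_cast hRcard
  have hrhobig : (1 - 3 * d) * (m : ℝ) ≤ rho := by
    have h1 : (1 - 2 * d) * ((1 - κ / 8) * m) ≤ (1 - 2 * d) * A'.card :=
      mul_le_mul_of_nonneg_left hA'big (by linarith)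
    have h2 : κ ≤ d := by
      rw [hκ]
      have h3 := mul_le_mul_of_nonneg_left hd1 hd0.le
      have h4 : d ^ 2 = d * d := sq d
      rw [h4]
      linarith
    have h3 : (1 - 3 * d) ≤ (1 - 2 * d) * (1 - κ / 8) := by
      have e : (1 - 2 * d) * (1 - κ / 8) = 1 - 2 * d - κ / 8 + d * κ / 4 := by ring
      have e2 := mul_pos hd0 hκ0
      rw [e]
      linarith
    have h4 := mul_le_mul_of_nonneg_right h3 hm0.le
    linarith
  have hd3 : 3 * d ≤ 3 / 10 ^ 10 := by linarith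
  have hrho99 : 99 / 100 * (m : ℝ) ≤ rho := by
    have h1 : (99 / 100 : ℝ) ≤ 1 - 3 * d := by linarith
    have h2 := mul_le_mul_of_nonneg_right h1 hm0.le
    linarith
  have hrho0 : (0 : ℝ) < rho := by linarith
  have hZR : ZSF R := hZ.mono hRA
  have hNR : NI R := hNI.mono hRA'
  -- lower bounds for the sumsets
  have hlowA : 9 / 20 * (m : ℝ) ^ 2 + 1 ≤ A.subsetSum.card := by
    have h := hM3 G A (by omega) hZ
    rw [← hm] at h
    exact h
  have hGcard : (A.subsetSum.card : ℝ) ≤ Nat.card G := by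
    have : Fintype G := Fintype.ofFinite G
    rw [Nat.card_eq_fintype_card]
    exact_mod_cast Finset.card_le_univ _
  -- R generates
  have hclR : AddSubgroup.closure (R : Set G) = ⊤ := by
    by_contra hne
    rw [← hcl] at hne
    have h1 := doubling A R hRA hne
    have h2 := hM3 G R (by
      have h3 : (2 * M3 : ℝ) ≤ m := by
        have : 2 * M3 ≤ m := by omega
        exact_mod_cast this
      have h4 : (M3 : ℝ) ≤ R.card := by linarith
      exact_mod_cast h4) hZR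
    have h3 : (2 : ℝ) * R.subsetSum.card ≤ A.subsetSum.card := by exact_mod_cast h1
    have h4 : (99 / 100 * (m : ℝ)) ^ 2 ≤ (R.card : ℝ) ^ 2 :=
      pow_le_pow_left₀ (by positivity) (by linarith) 2
    have h5 : (99 / 100 * (m : ℝ)) ^ 2 = 9801 / 10000 * (m : ℝ) ^ 2 := by ring
    have h6 : (0 : ℝ) ≤ (m : ℝ) ^ 2 := by positivity
    rw [h5] at h4
    linarith
  -- apply the core theorem
  have hXbig : c * (m : ℝ) ^ 2 ≤ X.subsetSum.card := by
    have h1 := crude_bound X.card X rfl (hZ'.mono hXA) (hNI.mono hXA)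
    have h2 : (X.card : ℝ) ^ 2 ≤ 288 * X.subsetSum.card := by exact_mod_cast h1
    have h3 : d ^ 2 / 64 * (m : ℝ) ≤ X.card := by
      have h4 : d ^ 2 / 32 * ((m : ℝ) / 2) ≤ d ^ 2 / 32 * A'.card :=
        mul_le_mul_of_nonneg_left hA'half (by positivity)
      linarith
    have h4 : (d ^ 2 / 64 * (m : ℝ)) ^ 2 ≤ (X.card : ℝ) ^ 2 :=
      pow_le_pow_left₀ (by positivity) h3 2
    rw [hc]
    have h5 : (d ^ 2 / 64 * (m : ℝ)) ^ 2 = (d ^ 2 / 64) ^ 2 * (m : ℝ) ^ 2 := by ring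
    rw [h5] at h4
    linarith
  have : Fintype G := Fintype.ofFinite G
  have hsymR : (sym R).card = 2 * R.card + 1 := card_sym R hZR hNR
  obtain ⟨lam, hlam⟩ : ∃ lam : ℝ, lam = (1 + d) * rho := ⟨_, rfl⟩
  have hrhom : (rho : ℝ) ≤ m := by linarith
  have hlam0 : 0 < lam := by rw [hlam]; positivity
  have hlamm : lam ≤ (1 + d) * m := by
    rw [hlam]; exact mul_le_mul_of_nonneg_left hrhom (by linarith)
  obtain ⟨W, L, w, hW, hL, hsurj, hkerL, hwR⟩ := hM2 G R X.subsetSum m lam hclR (by omega) hRcard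
    hlam0 (by
      have : (1 + d) * (m : ℝ) ≤ 2 * m := mul_le_mul_of_nonneg_right (by linarith) hm0.le
      linarith) (by
      rw [hsymR, hlam]
      push_cast
      have : (1 + d) * (rho : ℝ) ≤ (1 + 1 / 10 ^ 10) * R.card := by
        apply mul_le_mul (by linarith) hrho1r hrho0.le (by norm_num)
      have h0 : (0 : ℝ) ≤ R.card := by positivity
      linarith) hXbig (by
      have h1 : (X.subsetSum.card : ℝ) ≤ 3 * d * (m : ℝ) ^ 2 := by
        refine hXS.trans ?_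
        have h2 : (A'.card : ℝ) ^ 2 ≤ (m : ℝ) ^ 2 := pow_le_pow_left₀ (by positivity) hA'le 2
        have h3 := mul_le_mul_of_nonneg_left h2 (by positivity : (0 : ℝ) ≤ 3 * d)
        linarith
      have h2 : 9 / 20 * (m : ℝ) ^ 2 ≤ Fintype.card G := by
        rw [← Nat.card_eq_fintype_card]; linarith
      have h3 : δ / 16 * (9 / 20 * (m : ℝ) ^ 2) ≤ δ / 16 * Fintype.card G :=
        mul_le_mul_of_nonneg_left h2 (by positivity)
      have h4 : 3 * d * (m : ℝ) ^ 2 < δ / 16 * (9 / 20 * (m : ℝ) ^ 2) := by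
        rw [hd, hδ]
        have : (0 : ℝ) < (m : ℝ) ^ 2 := by positivity
        linarith
      linarith) (by
      intro y hy
      have := hgr y hy
      rw [mul_one] at this
      rw [hlam]
      exact this)
  obtain ⟨q, hq⟩ : ∃ q, q = Nat.card w.ker := ⟨_, rfl⟩
  rw [← hq] at hkerL
  have hqL : 1000000 * (q * L) ≤ 1000001 * m := by
    have h1 : (q : ℝ) * L ≤ (1 + δ) * ((1 + d) * m) :=
      hkerL.trans (mul_le_mul_of_nonneg_left hlamm (by linarith))
    have h2 : (1 + δ) * (1 + d) ≤ 1000001 / 1000000 := by rw [hδ, hd]; norm_num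
    have h3 := mul_le_mul_of_nonneg_right h2 hm0.le
    have h4 : (1000000 : ℝ) * (q * L) ≤ 1000001 * m := by linarith
    exact_mod_cast h4
  have hqpos : 0 < q := by rw [hq]; exact Nat.card_pos
  have hLW : L < W := by
    by_contra hc2
    push Not at hc2
    have h1 := card_le_ker_mul hW w A.subsetSum
    rw [← hq] at h1
    have h2 : q * W ≤ q * L := Nat.mul_le_mul_left _ hc2
    have h3 : A.subsetSum.card ≤ 2 * m := by omega
    have h4 : (A.subsetSum.card : ℝ) ≤ 2 * m := by exact_mod_cast h3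
    linarith
  have hq2m : q ≤ 2 * m := by
    have : q * 1 ≤ q * L := Nat.mul_le_mul_left _ hL
    omega
  obtain ⟨A0, hA0⟩ : ∃ A0, A0 = A.filter (fun x => w x = 0) := ⟨_, rfl⟩
  obtain ⟨a, b, hab, ha2, hb3⟩ := small_part w.ker A0 (by
    rw [hA0]; exact hZ.mono (Finset.filter_subset _ _)) (by
    intro x hx
    rw [hA0] at hx
    rw [AddMonoidHom.mem_ker]
    exact (Finset.mem_filter.1 hx).2)
  rw [← hq] at ha2 hb3
  have ht8 := small_part_m hm24 hq2m ha2 hb3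
  rw [← hab] at ht8
  have hmiss' := hmiss W w hW hsurj
  rw [← hq, ← hm] at hmiss'
  apply assemble2 hW w hsurj A R hZ hRA m q L hm.symm hm24 hq hL hLW hwR hqL _ _ hsum hmiss'
  · have h1 : (R.filter (fun x => w x = 0)).card + (R.filter (fun x => w x ≠ 0)).card = R.card :=
      Finset.card_filter_add_card_filter_not _
    have h2 : (R.filter (fun x => w x = 0)).card ≤ A0.card := by
      rw [hA0]
      exact Finset.card_le_card (Finset.filter_subset_filter _ hRA)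
    have h3 : 9999999997 * (m : ℝ) ≤ 10000000000 * R.card := by
      have h4 : 1 - 3 / 10 ^ 10 ≤ 1 - 3 * d := by linarith
      have h5 := mul_le_mul_of_nonneg_right h4 hm0.le
      linarith
    have h4 : 9999999997 * m ≤ 10000000000 * R.card := by exact_mod_cast h3
    clear h3
    omega
  · intro hq10
    rw [← hA0, hab]
    exact small_part_large hq10 ha2 hb3

end Pool.Agent.Q248.ZU
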