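import Mathlib
import Pool.Agent.Q248.ZU.Main2

/-!
Maximum zero-sum-free sets modulo `N` without units: missing elements.
-/

set_option autoImplicit false
set_option linter.unusedSectionVars false

open Finset

namespace Pool.Agent.Q248.ZU

open Pool.Agent.Helper398

section
variable {G : Type*} [AddCommGroup G] [Finite G] [DecidableEq G]

/-- multiplicities are at most the order of the kernel -/
theorem mult_le2 {W : ℕ} (w : G →+ ZMod W) (v : G → ℤ) (hv : ∀ x, (v x : ZMod W) = w x)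
    (A : Finset G) (hZ : ∀ a ∈ A, ∀ b ∈ A, a ≠ b → a + b ≠ 0) (j : ℤ) (hj : 1 ≤ j) :
    (A.filter (fun s => |v s| = j)).card ≤ Nat.card w.ker := by
  obtain ⟨φ, hφ⟩ : ∃ φ : G → G, φ = fun s => if v s = j then s else -s := ⟨_, rfl⟩
  have hinj : ∀ a ∈ A.filter (fun s => |v s| = j), ∀ b ∈ A.filter (fun s => |v s| = j),
      φ a = φ b → a = b := by
    intro a ha b hb hab
    rw [Finset.mem_filter] at ha hb
    by_contra hne
    have h1 : a + b ≠ 0 := hZ a ha.1 b hb.1 hne
    simp only [hφ] at hab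
    split_ifs at hab with h2 h3 h3
    · exact hne hab
    · exact h1 (by rw [hab, neg_add_cancel])
    · exact h1 (by rw [← hab, add_neg_cancel])
    · exact hne (neg_injective hab)
  rw [← Finset.card_image_of_injOn (fun a ha b hb => hinj a ha b hb)]
  apply fiber_card w _ (j : ZMod W)
  intro x hx
  rw [Finset.mem_image] at hx
  obtain ⟨s, hs, rfl⟩ := hx
  rw [Finset.mem_filter] at hs
  simp only [hφ]
  split_ifs with h
  · rw [← hv, h]
  · rw [map_neg, ← hv]
    have : v s = -j := by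
      rcases (abs_eq (by omega)).1 hs.2 with h' | h'
      · exact absurd h' h
      · exact h'
    rw [this]
    push_cast
    ring

/-- the weight of a set with two missing elements -/
theorem missing {W : ℕ} (hW : 0 < W) (w : G →+ ZMod W) (A1 : Finset G)
    (hA1 : ∀ a ∈ A1, w a ≠ 0) (hZ : ∀ a ∈ A1, ∀ b ∈ A1, a ≠ b → a + b ≠ 0)
    (z1 z2 : G) (h1 : z1 ∉ A1) (h1' : -z1 ∉ A1) (h2 : z2 ∉ A1) (h2' : -z2 ∉ A1)
    (h12 : z1 ≠ z2) (h12' : z1 + z2 ≠ 0) (hz1 : w z1 ≠ 0) (hz2 : w z2 ≠ 0) :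
    Wq (Nat.card w.ker) (A1.card + 2) ≤ ∑ x ∈ A1, (w x).valMinAbs.natAbs +
      ((w z1).valMinAbs.natAbs + (w z2).valMinAbs.natAbs) := by
  have : NeZero W := ⟨by omega⟩
  have hqpos : 0 < Nat.card w.ker := Nat.card_pos
  have hz1' : z1 ∉ insert z2 A1 := by
    rw [Finset.mem_insert]
    rintro (h | h)
    · exact h12 h
    · exact h1 h
  have hcard : (insert z1 (insert z2 A1)).card = A1.card + 2 := by
    rw [Finset.card_insert_of_notMem hz1', Finset.card_insert_of_notMem h2]
  have hsum : ∑ x ∈ insert z1 (insert z2 A1), (w x).valMinAbs.natAbs =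
      ∑ x ∈ A1, (w x).valMinAbs.natAbs +
      ((w z1).valMinAbs.natAbs + (w z2).valMinAbs.natAbs) := by
    rw [Finset.sum_insert hz1', Finset.sum_insert h2]
    ring
  rw [← hcard, ← hsum]
  have hne : ∀ i ∈ insert z1 (insert z2 A1), w i ≠ 0 := by
    intro i hi
    rw [Finset.mem_insert, Finset.mem_insert] at hi
    rcases hi with rfl | rfl | hi
    · exact hz1
    · exact hz2
    · exact hA1 i hi
  have hpos : ∀ i ∈ insert z1 (insert z2 A1), 1 ≤ (w i).valMinAbs.natAbs := by
    intro i hi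
    have h := hne i hi
    have h3 : (w i).valMinAbs ≠ 0 := fun h4 => h ((ZMod.valMinAbs_eq_zero _).1 h4)
    have := Int.natAbs_pos.2 h3
    omega
  have hasym : ∀ a ∈ insert z1 (insert z2 A1), ∀ b ∈ insert z1 (insert z2 A1), a ≠ b →
      a + b ≠ 0 := by
    intro a ha b hb hab hs
    rw [Finset.mem_insert, Finset.mem_insert] at ha hb
    have hb' : b = -a := by rw [eq_neg_iff_add_eq_zero, add_comm]; exact hs
    rcases ha with rfl | rfl | ha
    · rcases hb with rfl | rfl | hb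
      · exact hab rfl
      · exact h12' hs
      · exact h1' (hb' ▸ hb)
    · rcases hb with rfl | rfl | hb
      · exact h12' (by rw [add_comm]; exact hs)
      · exact hab rfl
      · exact h2' (hb' ▸ hb)
    · rcases hb with rfl | rfl | hb
      · apply h1'; rw [hb', neg_neg]; exact ha
      · apply h2'; rw [hb', neg_neg]; exact ha
      · exact hZ a ha b hb hab hs
  refine wsum_ge _ hqpos (fun i => (w i).valMinAbs.natAbs) _ hpos ?_
  intro j
  rcases Nat.eq_zero_or_pos j with hj | hj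
  · have : (insert z1 (insert z2 A1)).filter (fun i => (w i).valMinAbs.natAbs = j) = ∅ := by
      rw [Finset.filter_eq_empty_iff]
      intro x hx hc
      have := hpos x hx
      omega
    rw [this]; simp
  · refine le_trans (Finset.card_le_card ?_) (mult_le2 w (fun x => (w x).valMinAbs)
      (fun x => ZMod.coe_valMinAbs _) _ hasym (j : ℤ) (by omega))
    intro x hx
    rw [Finset.mem_filter] at hx ⊢
    refine ⟨hx.1, ?_⟩
    rw [Int.abs_eq_natAbs, hx.2]

end

/-- a small prime which does not divide `N` -/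
theorem exists_prime_not_dvd (N J : ℕ) (hJ : 0 < J) (hN0 : 0 < N) (hN : N < 8 * J ^ 3) :
    ∃ p, p.Prime ∧ 2 ≤ p ∧ p ≤ 8 * J ∧ ¬ p ∣ N := by
  obtain ⟨p1, hp1, h1, h1'⟩ := Nat.exists_prime_lt_and_le_two_mul J (by omega)
  obtain ⟨p2, hp2, h2, h2'⟩ := Nat.exists_prime_lt_and_le_two_mul (2 * J) (by omega)
  obtain ⟨p3, hp3, h3, h3'⟩ := Nat.exists_prime_lt_and_le_two_mul (4 * J) (by omega)
  by_contra hcon
  push Not at hcon
  have d1 := hcon p1 hp1 hp1.two_le (by omega)
  have d2 := hcon p2 hp2 hp2.two_le (by omega)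
  have d3 := hcon p3 hp3 hp3.two_le (by omega)
  have c12 : Nat.Coprime p1 p2 := (Nat.coprime_primes hp1 hp2).2 (by omega)
  have c13 : Nat.Coprime p1 p3 := (Nat.coprime_primes hp1 hp3).2 (by omega)
  have c23 : Nat.Coprime p2 p3 := (Nat.coprime_primes hp2 hp3).2 (by omega)
  have e1 : p1 * p2 ∣ N := Nat.Coprime.mul_dvd_of_dvd_of_dvd c12 d1 d2
  have e2 : p1 * p2 * p3 ∣ N :=
    Nat.Coprime.mul_dvd_of_dvd_of_dvd (Nat.Coprime.mul_left c13 c23) e1 d3
  have e3 := Nat.le_of_dvd hN0 e2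
  have e4 : J * (2 * J) ≤ p1 * p2 := Nat.mul_le_mul h1.le h2.le
  have e5 : J * (2 * J) * (4 * J) ≤ p1 * p2 * p3 := Nat.mul_le_mul e4 h3.le
  have e6 : J * (2 * J) * (4 * J) = 8 * J ^ 3 := by ring
  omega

end Pool.Agent.Q248.ZU
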