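import Mathlib
import Pool.Agent.Q248.ZU.Units

/-!
Maximum zero-sum-free sets modulo `N` contain a unit, for all large `N`.
-/

set_option autoImplicit false
set_option linter.unusedSectionVars false

open Finset

namespace Pool.Agent.Q248.ZU

open Pool.Agent.Helper398

theorem card_ker {N W : ℕ} [NeZero N] (hW : 0 < W) (w : ZMod N →+ ZMod W)
    (hsurj : Function.Surjective w) : N = W * Nat.card w.ker := by
  have h1 := AddSubgroup.card_eq_card_quotient_mul_card_addSubgroup w.ker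
  have h2 : Nat.card (ZMod N ⧸ w.ker) = Nat.card (ZMod W) :=
    Nat.card_congr (QuotientAddGroup.quotientKerEquivOfSurjective w hsurj).toEquiv
  rw [h2, Nat.card_zmod, Nat.card_zmod] at h1
  exact h1

theorem w_apply {N W : ℕ} [NeZero N] (w : ZMod N →+ ZMod W) (x : ZMod N) :
    w x = (x.val : ZMod W) * w 1 := by
  have h1 : x = x.val • (1 : ZMod N) := by
    rw [nsmul_eq_mul, mul_one, ZMod.natCast_zmod_val]
  calc w x = w (x.val • (1 : ZMod N)) := by rw [← h1]
    _ = x.val • w 1 := map_nsmul _ _ _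
    _ = (x.val : ZMod W) * w 1 := by rw [nsmul_eq_mul]

theorem exists_unit_one {N W : ℕ} [NeZero N] (hW : 0 < W) (w : ZMod N →+ ZMod W)
    (hsurj : Function.Surjective w) : ∃ z : ZMod N, IsUnit z ∧ w z = 1 := by
  have : NeZero W := ⟨by omega⟩
  have hdvd : W ∣ N := ⟨_, card_ker hW w hsurj⟩
  obtain ⟨x, hx⟩ := hsurj 1
  rw [w_apply] at hx
  have hu : IsUnit (x.val : ZMod W) := IsUnit.of_mul_eq_one _ hx
  obtain ⟨u, hu2⟩ := hu
  obtain ⟨U, hU⟩ := ZMod.unitsMap_surjective hdvd u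
  refine ⟨(U : ZMod N), U.isUnit, ?_⟩
  rw [w_apply]
  have h3 : (((U : ZMod N).val : ℕ) : ZMod W) = (u : ZMod W) := by
    rw [← hU, ZMod.unitsMap_val, ZMod.cast_eq_val]
  rw [h3, hu2]
  exact hx

theorem large_false : ∃ M : ℕ, ∀ (N : ℕ) [NeZero N] (A : Finset (ZMod N)),
    AddSubgroup.closure (A : Set (ZMod N)) = ⊤ → ZSF A → (∀ a ∈ A, ¬ IsUnit a) → M ≤ A.card →
    2 * N ≤ A.card ^ 2 + 3 * A.card + 2 → False := by
  obtain ⟨M, hM⟩ := main2
  refine ⟨max M (10 ^ 49), ?_⟩
  intro N _ A hcl hZ hU hMA hN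
  obtain ⟨m, hm⟩ : ∃ m, m = A.card := ⟨_, rfl⟩
  rw [← hm] at hMA hN
  have hm49 : 10 ^ 49 ≤ m := le_trans (le_max_right _ _) hMA
  have hmM : M ≤ m := le_trans (le_max_left _ _) hMA
  have hmN : m ≤ N := by
    rw [hm]
    have h := Finset.card_le_univ A
    rwa [ZMod.card] at h
  have hN0 : 0 < N := by omega
  have hsumN : A.subsetSum.card ≤ N := by
    have h := Finset.card_le_univ A.subsetSum
    rwa [ZMod.card] at h
  refine hM (ZMod N) A hcl hZ (by rw [← hm]; exact hmM) (by rw [← hm]; omega) ?_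
  intro W w hW hsurj hq
  have hNW := card_ker hW w hsurj
  obtain ⟨q, hqd⟩ : ∃ q, q = Nat.card w.ker := ⟨_, rfl⟩
  rw [← hqd] at hq hNW
  obtain ⟨J, hJd⟩ : ∃ J, J = m / 10 ^ 16 := ⟨_, rfl⟩
  have hJ1 : J * 10 ^ 16 ≤ m := by rw [hJd]; exact Nat.div_mul_le_self _ _
  have hJ2 : m < (J + 1) * 10 ^ 16 := by
    rw [hJd]
    have := Nat.lt_div_mul_add (a := m) (b := 10 ^ 16) (by norm_num)
    rw [add_mul, one_mul]
    exact this
  have hJ3 : 10 ^ 32 ≤ J := by
    by_contra hc
    push Not at hc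
    have : (J + 1) * 10 ^ 16 ≤ 10 ^ 32 * 10 ^ 16 := Nat.mul_le_mul_right _ (by omega)
    omega
  have hNJ : N < 8 * J ^ 3 := by
    obtain ⟨c, hc⟩ : ∃ c : ℕ, c = 10 ^ 16 := ⟨_, rfl⟩
    have hc2 : c ^ 2 = 10 ^ 32 := by subst hc; norm_num
    have hJ2' : m < (J + 1) * c := by rw [hc]; exact hJ2
    have hJ22 : J + 1 ≤ 2 * J := by
      clear hJ2 hJ1 hJd hc2 hc hJ2'
      omega
    have h1 : m < 2 * J * c := lt_of_lt_of_le hJ2' (Nat.mul_le_mul_right c hJ22)
    have h2 : N ≤ m ^ 2 := by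
      have e1 : 4 * m ≤ m * m := Nat.mul_le_mul_right m (by omega)
      have e2 : m ^ 2 = m * m := sq m
      have e3 : 2 ≤ m := by omega
      omega
    have hJc : c ^ 2 ≤ J := hc2.le.trans hJ3
    have h3 : m ^ 2 < (2 * J * c) ^ 2 := Nat.pow_lt_pow_left h1 (by norm_num)
    have h4 : (2 * J * c) ^ 2 = 4 * J ^ 2 * c ^ 2 := by ring
    have h5 : 4 * J ^ 2 * c ^ 2 ≤ 4 * J ^ 2 * J := Nat.mul_le_mul_left _ hJc
    have h6 : 2 * (4 * J ^ 2 * J) = 8 * J ^ 3 := by ring
    have h7 : 4 * J ^ 2 * J ≤ 2 * (4 * J ^ 2 * J) := by omega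
    rw [← h6]
    omega
  obtain ⟨p, hp, hp2, hp8, hpN⟩ := exists_prime_not_dvd N J (by omega) hN0 hNJ
  have hpq : p * q ≤ 8 * J * (6 * 10 ^ 10) := Nat.mul_le_mul hp8 hq.le
  have hpW : 2 * p ≤ W := by
    by_contra hc
    push Not at hc
    have h1 : W * q ≤ 2 * p * q := Nat.mul_le_mul_right _ hc.le
    have h2 : 2 * p * q = 2 * (p * q) := by ring
    omega
  obtain ⟨z1, hz1, hwz1⟩ := exists_unit_one hW w hsurj
  have hwz2 : w ((p : ZMod N) * z1) = (p : ZMod W) := by
    rw [← nsmul_eq_mul, map_nsmul, hwz1, nsmul_eq_mul, mul_one]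
  have hz2 : IsUnit ((p : ZMod N) * z1) :=
    ((ZMod.isUnit_prime_iff_not_dvd hp).2 hpN).mul hz1
  have hv1 : (w z1).valMinAbs = 1 := by
    rw [hwz1]
    have h := ZMod.valMinAbs_natCast_of_le_half (n := W) (a := 1) (by omega)
    simpa using h
  have hv2 : (w ((p : ZMod N) * z1)).valMinAbs = p := by
    rw [hwz2]
    exact ZMod.valMinAbs_natCast_of_le_half (n := W) (a := p) (by omega)
  refine ⟨1, p, ?_, ?_⟩
  · rw [← hm, ← hqd]
    have e1 : 1000 * (q * (1 + p)) = 1000 * q + 1000 * (p * q) := by ring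
    rw [e1]
    omega
  · have h := missing hW w (A.filter (fun x => w x ≠ 0))
      (fun a ha => (Finset.mem_filter.1 ha).2) (by
        intro a ha b hb hab hs
        rw [Finset.mem_filter] at ha hb
        apply hZ {a, b} (by intro x hx; simp at hx; rcases hx with rfl | rfl; exacts [ha.1, hb.1])
          (by simp)
        rw [Finset.sum_pair hab, hs])
      z1 ((p : ZMod N) * z1)
      (fun hc => hU _ (Finset.mem_filter.1 hc).1 hz1)
      (fun hc => hU _ (Finset.mem_filter.1 hc).1 hz1.neg)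
      (fun hc => hU _ (Finset.mem_filter.1 hc).1 hz2)
      (fun hc => hU _ (Finset.mem_filter.1 hc).1 hz2.neg)
      (by
        intro hc
        have h1 : (w z1).valMinAbs = (w ((p : ZMod N) * z1)).valMinAbs := by rw [← hc]
        rw [hv1, hv2] at h1
        omega)
      (by
        intro hc
        have h1 : w (z1 + (p : ZMod N) * z1) = 0 := by rw [hc, map_zero]
        rw [map_add, hwz1, hwz2] at h1
        have h2 : ((1 + p : ℕ) : ZMod W) = 0 := by push_cast; exact h1
        rw [ZMod.natCast_eq_zero_iff] at h2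
        have h3 := Nat.le_of_dvd (by omega) h2
        omega)
      (by
        intro hc
        rw [hc, ZMod.valMinAbs_zero] at hv1
        omega)
      (by
        intro hc
        rw [hc, ZMod.valMinAbs_zero] at hv2
        omega)
    rw [hv1, hv2] at h
    exact h

/-- `{1, …, j}` is zero-sum-free when `j (j + 1) < 2 N` -/
theorem interval_ZSF (N : ℕ) [NeZero N] (j : ℕ) (hj : j * (j + 1) < 2 * N) (hjN : j < N) :
    ∃ S : Finset (ZMod N), ZSF S ∧ S.card = j := by
  have hval : ∀ i ∈ Finset.Icc 1 j, ((i : ℕ) : ZMod N).val = i := by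
    intro i hi
    rw [Finset.mem_Icc] at hi
    exact ZMod.val_natCast_of_lt (by omega)
  have hinj : Set.InjOn (fun i : ℕ => (i : ZMod N)) (Finset.Icc 1 j : Finset ℕ) := by
    intro a ha b hb hab
    have h1 := hval a ha
    have h2 := hval b hb
    have h3 : (a : ZMod N) = (b : ZMod N) := hab
    rw [← h1, ← h2, h3]
  refine ⟨(Finset.Icc 1 j).image (fun i : ℕ => (i : ZMod N)), ?_, ?_⟩
  · intro B hB hne hs
    have h1 : (((∑ b ∈ B, b.val : ℕ)) : ZMod N) = 0 := by
      rw [← hs]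
      push_cast
      exact Finset.sum_congr rfl (fun b _ => ZMod.natCast_zmod_val b)
    rw [ZMod.natCast_eq_zero_iff] at h1
    have h2 : ∑ b ∈ B, b.val ≤
        ∑ b ∈ (Finset.Icc 1 j).image (fun i : ℕ => (i : ZMod N)), b.val :=
      Finset.sum_le_sum_of_subset hB
    rw [Finset.sum_image hinj, Finset.sum_congr rfl hval] at h2
    have h3 : ∑ i ∈ Finset.Icc 1 j, i ≤ ∑ i ∈ Finset.range (j + 1), i := by
      apply Finset.sum_le_sum_of_subset
      intro i hi
      rw [Finset.mem_Icc] at hi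
      rw [Finset.mem_range]
      omega
    have h4 := Finset.sum_range_id_mul_two (j + 1)
    have h5 : (j + 1) * (j + 1 - 1) = j * (j + 1) := by rw [Nat.add_sub_cancel]; ring
    have h6 : 0 < ∑ b ∈ B, b.val := by
      apply Finset.sum_pos _ hne
      intro b hb
      have h7 := hB hb
      rw [Finset.mem_image] at h7
      obtain ⟨i, hi, rfl⟩ := h7
      rw [hval i hi]
      rw [Finset.mem_Icc] at hi
      omega
    have h7 := Nat.le_of_dvd h6 h1
    omega
  · rw [Finset.card_image_of_injOn hinj, Nat.card_Icc]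
    omega

/-- a maximum zero-sum-free set modulo `N` generates, unless it can be enlarged by `1` -/
theorem insert_one_ZSF {N : ℕ} [NeZero N] (S : Finset (ZMod N)) (hZ : ZSF S)
    (h : (1 : ZMod N) ∉ AddSubgroup.closure (S : Set (ZMod N))) :
    (1 : ZMod N) ∉ S ∧ ZSF (insert 1 S) := by
  refine ⟨fun hc => h (AddSubgroup.subset_closure hc), ?_⟩
  intro B hB hne hs
  by_cases h1 : (1 : ZMod N) ∈ B
  · apply h
    rw [← Finset.add_sum_erase B (fun x => x) h1] at hs
    have h2 : ∑ b ∈ B.erase 1, b ∈ AddSubgroup.closure (S : Set (ZMod N)) := by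
      apply AddSubgroup.sum_mem
      intro b hb
      rw [Finset.mem_erase] at hb
      have h3 := hB hb.2
      rw [Finset.mem_insert] at h3
      rcases h3 with h3 | h3
      · exact absurd h3 hb.1
      · exact AddSubgroup.subset_closure h3
    have h3 : (1 : ZMod N) = -∑ b ∈ B.erase 1, b := eq_neg_of_add_eq_zero_left hs
    rw [h3]
    exact AddSubgroup.neg_mem _ h2
  · apply hZ B _ hne hs
    intro x hx
    have h2 := hB hx
    rw [Finset.mem_insert] at h2
    rcases h2 with h2 | h2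
    · rw [h2] at hx; exact absurd hx h1
    · exact h2

theorem closure_eq_top {N : ℕ} [NeZero N] (H : AddSubgroup (ZMod N)) (h : (1 : ZMod N) ∈ H) :
    H = ⊤ := by
  rw [eq_top_iff]
  intro x _
  have h1 : x = x.val • (1 : ZMod N) := by
    rw [nsmul_eq_mul, mul_one, ZMod.natCast_zmod_val]
  rw [h1]
  exact AddSubgroup.nsmul_mem _ h _

/-- **For all large `N`, every maximum zero-sum-free set modulo `N` contains a unit.** -/
theorem large_unit : ∃ M : ℕ, ∀ (N : ℕ), M ≤ N → ∀ (S : Finset (ZMod N)),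
    ZSF S → (∀ S' : Finset (ZMod N), ZSF S' → S'.card ≤ S.card) → ∃ a ∈ S, IsUnit a := by
  obtain ⟨M, hM⟩ := large_false
  refine ⟨M ^ 2 + 3 * M + 3, ?_⟩
  intro N hN S hZ hmax
  have : NeZero N := ⟨by omega⟩
  by_contra hcon
  push Not at hcon
  have hk : 2 * N ≤ S.card ^ 2 + 3 * S.card + 2 := by
    by_contra hc
    push Not at hc
    obtain ⟨S', h1, h2⟩ := interval_ZSF N (S.card + 1) (by nlinarith) (by nlinarith)
    have h3 := hmax S' h1
    omega
  have hcl : AddSubgroup.closure (S : Set (ZMod N)) = ⊤ := by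
    apply closure_eq_top
    by_contra hc
    obtain ⟨h1, h2⟩ := insert_one_ZSF S hZ hc
    have h3 := hmax _ h2
    rw [Finset.card_insert_of_notMem h1] at h3
    omega
  refine hM N S hcl hZ hcon ?_ hk
  by_contra hc
  push Not at hc
  have h1 : S.card ^ 2 ≤ M ^ 2 := Nat.pow_le_pow_left hc.le 2
  omega

end Pool.Agent.Q248.ZU
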